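import Pool.Agent.MP_cccb39_co.Graph

open Pool.Agent.MP_cccb39_co

namespace Pool.Agent.Results.MP_cccb39_co.DegreeFour

/-- A planar bipartite graph of maximum degree at most four with a 3-list-assignment that has no
three pairwise disjoint proper colourings. -/
theorem result : ∃ (n : ℕ) (G : SimpleGraph (Fin n)) (f : Fin n → ℝ × ℝ) (L : Fin n → Finset ℕ),
    IsPlaneDrawing G f ∧ G.IsBipartite ∧ (∀ v, (G.neighborSet v).ncard ≤ 4) ∧
    (∀ v, (L v).card = 3) ∧
    ¬∃ c : Fin 3 → Fin n → ℕ, (∀ i v, c i v ∈ L v) ∧ (∀ i u v, G.Adj u v → c i u ≠ c i v) ∧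
      ∀ i j v, i ≠ j → c i v ≠ c j v :=
  ⟨288, gr, fun v => toR (pos v.val), lists, gr_plane, gr_bip, gr_deg, lists_card, gr_no⟩

end Pool.Agent.Results.MP_cccb39_co.DegreeFour
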