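import Pool.Agent.MP_cccb39_co.Fr.Main

namespace Pool.Agent.Results.MP_cccb39_co.Fractional

/-- Fractional packing of list (and correspondence) colourings for cyclically 4-edge-connected
cubic bipartite graphs with two 4-cycles. Lists: take `M u x v y := G.Adj u v ∧ x = y`. -/
theorem result (V : Type) [Fintype V] (G : SimpleGraph V)
    (hcubic : ∀ v, (G.neighborSet v).ncard = 3) (hbip : G.IsBipartite)
    (hcut : ∀ X : Set V, 2 ≤ X.ncard → 2 ≤ Xᶜ.ncard →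
      4 ≤ {p : V × V | p.1 ∈ X ∧ p.2 ∉ X ∧ G.Adj p.1 p.2}.ncard)
    (hbig : 14 ≤ Fintype.card V) (a b c d a' b' c' d' : V)
    (h1 : G.Adj a b ∧ G.Adj b c ∧ G.Adj c d ∧ G.Adj d a ∧ a ≠ c ∧ b ≠ d)
    (h2 : G.Adj a' b' ∧ G.Adj b' c' ∧ G.Adj c' d' ∧ G.Adj d' a' ∧ a' ≠ c' ∧ b' ≠ d')
    (hne : ({a, b, c, d} : Set V) ≠ {a', b', c', d'})
    (L : V → Finset ℕ) (hL : ∀ v, (L v).card = 3) (M : V → ℕ → V → ℕ → Prop)
    (hs : ∀ u x v y, M u x v y → M v y u x) (ha : ∀ u x v y, M u x v y → G.Adj u v)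
    (hu : ∀ u x v y y', M u x v y → M u x v y' → y = y') :
    ∃ N : ℕ, 0 < N ∧ ∃ f : Fin (3 * N) → V → ℕ, (∀ k v, f k v ∈ L v) ∧
      (∀ k u v, ¬ M u (f k u) v (f k v)) ∧ ∀ v, ∀ x ∈ L v, {k | f k v = x}.ncard = N := by
  classical
  obtain ⟨col, g⟩ := FP.mkGr V G hcubic hbip hcut hbig
  have hg : FP.HasGC G := FP.hasGC g ⟨h1.1, h1.2.1, h1.2.2.1, h1.2.2.2.1, h1.2.2.2.2.1, h1.2.2.2.2.2⟩
    ⟨h2.1, h2.2.1, h2.2.2.1, h2.2.2.2.1, h2.2.2.2.2.1, h2.2.2.2.2.2⟩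
    (fun e => hne (by simpa using congrArg (fun s : Finset V => (s : Set V)) e))
  exact FP.corr V G (fun K hK => FP.foldT V G col K g hg hK) L hL M hs ha hu

end Pool.Agent.Results.MP_cccb39_co.Fractional
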