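import Pool.Agent.MP_cccb39_co.Fz.Main

open Pool.Agent.MP_cccb39_co

namespace Pool.Agent.Results.MP_cccb39_co.FractionalPlanar

/-- Every cubic planar bipartite graph has a fractional packing of proper colourings from lists
of size three. -/
theorem result (V : Type) [Fintype V] (G : SimpleGraph V) (f : V → ℝ × ℝ)
    (hplane : IsPlaneDrawing G f) (hcubic : ∀ v, (G.neighborSet v).ncard = 3)
    (hbip : G.IsBipartite) (L : V → Finset ℕ) (hL : ∀ v, (L v).card = 3) :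
    ∃ N : ℕ, 0 < N ∧ ∃ c : Fin (3 * N) → V → ℕ, (∀ k v, c k v ∈ L v) ∧
      (∀ k u v, G.Adj u v → c k u ≠ c k v) ∧ ∀ v, ∀ x ∈ L v, {k | c k v = x}.ncard = N := by
  obtain ⟨col, g⟩ := FZ.mkCb V G hcubic hbip
  obtain ⟨N, hN, c, h1, h2, h3⟩ := FZ.list V G (FZ.all FZ.connT FZ.prod V G col f g hplane) L hL
  refine ⟨N, hN, c, h1, h2, fun v x hx => Eq.trans ?_ (h3 v x hx)⟩
  rw [← Set.ncard_coe_finset]
  congr 1
  ext k
  simp

end Pool.Agent.Results.MP_cccb39_co.FractionalPlanar
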